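import Mathlib

namespace Pool.Agent.MP_710317_co

open Finset

/-- The number of edges of `G` with both endpoints in `U`. -/
noncomputable def inside {V : Type*} (G : SimpleGraph V) (U : Set V) : ℕ :=
  {e | e ∈ G.edgeSet ∧ ∀ v ∈ e, v ∈ U}.ncard

/-- The least value of the sum of the squares of the numbers of edges inside the two
parts, over all bipartitions of the vertex set. -/
noncomputable def qval {V : Type*} (G : SimpleGraph V) : ℕ :=
  sInf (Set.range fun U : Set V => inside G U ^ 2 + inside G Uᶜ ^ 2)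

/-- The values of `qval` on the finite graphs with exactly `m` edges. -/
def qvalues (m : ℕ) : Set ℕ :=
  {x | ∃ (N : ℕ) (G : SimpleGraph (Fin N)), G.edgeSet.ncard = m ∧ qval G = x}

open Classical in
/-- The adjacency matrix with integer entries. -/
noncomputable def ad {V : Type*} (G : SimpleGraph V) (u v : V) : ℤ :=
  if G.Adj u v then 1 else 0

section Basic

variable {V : Type*} (G : SimpleGraph V)

theorem ad_self (u : V) : ad G u u = 0 := by
  unfold ad
  exact if_neg (G.loopless.irrefl u)

theorem ad_nonneg (u v : V) : 0 ≤ ad G u v := by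
  unfold ad
  split_ifs <;> norm_num

theorem ad_of_adj {u v : V} (h : G.Adj u v) : ad G u v = 1 := by
  unfold ad
  simp [h]

theorem ad_of_not_adj {u v : V} (h : ¬ G.Adj u v) : ad G u v = 0 := by
  unfold ad
  simp [h]

theorem ad_comm (u v : V) : ad G u v = ad G v u := by
  by_cases h : G.Adj u v
  · rw [ad_of_adj G h, ad_of_adj G h.symm]
  · rw [ad_of_not_adj G h, ad_of_not_adj G (fun k => h k.symm)]

/-- Number of ordered adjacent pairs inside `U`. -/
noncomputable def ord (U : Finset V) : ℤ := ∑ u ∈ U, ∑ v ∈ U, ad G u v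

/-- Number of neighbours of `v` in `U`. -/
noncomputable def nb (U : Finset V) (v : V) : ℤ := ∑ w ∈ U, ad G v w

theorem nb_nonneg (U : Finset V) (v : V) : 0 ≤ nb G U v :=
  Finset.sum_nonneg fun w _ => ad_nonneg G v w

theorem ord_eq_sum_nb (U : Finset V) : ord G U = ∑ v ∈ U, nb G U v := rfl

theorem ord_nonneg (U : Finset V) : 0 ≤ ord G U :=
  Finset.sum_nonneg fun w _ => nb_nonneg G U w

theorem nb_insert [DecidableEq V] {W : Finset V} {v : V} (hv : v ∉ W) :
    nb G (insert v W) v = nb G W v := by
  unfold nb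
  rw [Finset.sum_insert hv, ad_self, zero_add]

theorem ord_insert [DecidableEq V] {W : Finset V} {v : V} (hv : v ∉ W) :
    ord G (insert v W) = ord G W + 2 * nb G W v := by
  unfold ord nb
  rw [Finset.sum_insert hv, Finset.sum_insert hv, ad_self]
  have h : ∀ u ∈ W, ∑ w ∈ insert v W, ad G u w = ad G v u + ∑ w ∈ W, ad G u w := by
    intro u _
    rw [Finset.sum_insert hv, ad_comm]
  rw [Finset.sum_congr rfl h, Finset.sum_add_distrib]
  ring

end Basic

section Bridge

variable {V : Type*} [Fintype V] [DecidableEq V] (G : SimpleGraph V)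

/-- The subgraph induced on `U` as a graph on the same vertex set. -/
def restr (U : Finset V) : SimpleGraph V where
  Adj u v := G.Adj u v ∧ u ∈ U ∧ v ∈ U
  symm := ⟨fun _ _ h => ⟨h.1.symm, h.2.2, h.2.1⟩⟩
  loopless := ⟨fun u h => G.loopless.irrefl u h.1⟩

omit [Fintype V] [DecidableEq V] in
theorem restr_adj (U : Finset V) (u v : V) :
    (restr G U).Adj u v ↔ G.Adj u v ∧ u ∈ U ∧ v ∈ U := Iff.rfl

theorem ord_eq_inside (U : Finset V) : ord G U = 2 * (inside G (U : Set V) : ℤ) := by
  classical
  have h1 : inside G (U : Set V) = (restr G U).edgeFinset.card := by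
    unfold inside
    rw [← Set.ncard_coe_finset]
    congr 1
    ext e
    induction e with
    | h a b =>
      rw [SimpleGraph.coe_edgeFinset, SimpleGraph.mem_edgeSet, restr_adj]
      simp
  have h2 := (restr G U).sum_degrees_eq_twice_card_edges
  have h3 : ord G U = ((∑ v, (restr G U).degree v : ℕ) : ℤ) := by
    unfold ord
    rw [Nat.cast_sum]
    rw [← Finset.sum_filter_add_sum_filter_not Finset.univ (fun v => v ∈ U)
      (fun v => (((restr G U).degree v : ℕ) : ℤ))]
    have hz : ∑ v ∈ Finset.univ.filter (fun v => ¬ v ∈ U), (((restr G U).degree v : ℕ) : ℤ) = 0 := by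
      apply Finset.sum_eq_zero
      intro v hv
      have hv' : v ∉ U := by simpa using hv
      have : (restr G U).neighborFinset v = ∅ := by
        ext w
        rw [SimpleGraph.mem_neighborFinset, restr_adj]
        simp [hv']
      rw [← SimpleGraph.card_neighborFinset_eq_degree, this]
      simp
    rw [hz, add_zero]
    have hf : Finset.univ.filter (fun v => v ∈ U) = U := by ext v; simp
    rw [hf]
    apply Finset.sum_congr rfl
    intro v hv
    have : (restr G U).neighborFinset v = U.filter (fun w => G.Adj v w) := by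
      ext w
      rw [SimpleGraph.mem_neighborFinset, restr_adj]
      simp [hv, and_comm]
    rw [← SimpleGraph.card_neighborFinset_eq_degree, this, Finset.card_filter]
    push_cast
    apply Finset.sum_congr rfl
    intro w _
    unfold ad
    split_ifs <;> rfl
  rw [h3, h2, h1]
  push_cast
  ring

theorem ord_univ_eq (m : ℕ) (hm : G.edgeSet.ncard = m) :
    ord G (Finset.univ : Finset V) = 2 * (m : ℤ) := by
  rw [ord_eq_inside, ← hm]
  unfold inside
  congr 3
  ext e
  simp

theorem qval_le (U : Finset V) :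
    4 * (qval G : ℤ) ≤ ord G U ^ 2 + ord G Uᶜ ^ 2 := by
  have h : qval G ≤ inside G (U : Set V) ^ 2 + inside G (U : Set V)ᶜ ^ 2 :=
    Nat.sInf_le ⟨(U : Set V), rfl⟩
  have h2 := ord_eq_inside G U
  have h3 := ord_eq_inside G Uᶜ
  rw [h2, h3]
  have h4 : ((Uᶜ : Finset V) : Set V) = (U : Set V)ᶜ := by simp
  rw [h4]
  have h5 : (qval G : ℤ) ≤ (inside G (U : Set V) : ℤ) ^ 2 + (inside G (U : Set V)ᶜ : ℤ) ^ 2 := by
    exact_mod_cast h
  nlinarith

theorem exists_qval : ∃ U : Finset V, 4 * (qval G : ℤ) = ord G U ^ 2 + ord G Uᶜ ^ 2 := by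
  classical
  have h : qval G ∈ Set.range fun U : Set V => inside G U ^ 2 + inside G Uᶜ ^ 2 :=
    Nat.sInf_mem (Set.range_nonempty _)
  obtain ⟨U, hU⟩ := h
  refine ⟨U.toFinset, ?_⟩
  rw [ord_eq_inside, ord_eq_inside]
  have h4 : (((U.toFinset)ᶜ : Finset V) : Set V) = Uᶜ := by ext; simp
  have h5 : ((U.toFinset : Finset V) : Set V) = U := by ext; simp
  rw [h4, h5]
  have hU' : (inside G U : ℤ) ^ 2 + (inside G Uᶜ : ℤ) ^ 2 = qval G := by exact_mod_cast hU
  rw [← hU']
  ring

end Bridge

end Pool.Agent.MP_710317_co
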