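import Pool.Agent.MP_710317_co.Basic

/-! Lower bounds for the maximum cut from proper colourings. -/

set_option linter.unusedSectionVars false

namespace Pool.Agent.MP_710317_co

open Finset

/-- signs -/
def sg (b : Bool) : ℤ := if b then 1 else -1

theorem sg_mul_self (b : Bool) : sg b * sg b = 1 := by cases b <;> rfl

theorem sg_not (b : Bool) : sg (!b) = - sg b := by cases b <;> rfl

theorem sum_sg {K : Type*} [Fintype K] [DecidableEq K] (i j : K) (h : i ≠ j) :
    ∑ y : K → Bool, sg (y i) * sg (y j) = 0 := by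
  have hinv : Function.Involutive (fun y : K → Bool => Function.update y i (!(y i))) := by
    intro y
    funext k
    by_cases hk : k = i
    · subst hk
      simp
    · simp [hk]
  have key : ∑ y : K → Bool, sg (y i) * sg (y j) = ∑ y : K → Bool, -(sg (y i) * sg (y j)) := by
    refine Fintype.sum_equiv hinv.toPerm _ _ ?_
    intro y
    have h1 : (hinv.toPerm : (K → Bool) → (K → Bool)) y = Function.update y i (!(y i)) := rfl
    rw [h1, Function.update_self, Function.update_of_ne h.symm, sg_not]
    ring
  rw [Finset.sum_neg_distrib] at key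
  linarith

section Cut

variable {V : Type*} [Fintype V] [DecidableEq V] (G : SimpleGraph V)

theorem ord_ind (U : Finset V) :
    ord G U = ∑ u, ∑ v, (if u ∈ U then 1 else 0) * (if v ∈ U then 1 else 0) * ad G u v := by
  unfold ord
  rw [← Finset.sum_filter_add_sum_filter_not Finset.univ (fun u => u ∈ U)]
  have h1 : Finset.univ.filter (fun u => u ∈ U) = U := by ext u; simp
  have h2 : ∑ u ∈ Finset.univ.filter (fun u => ¬ u ∈ U),
      ∑ v, (if u ∈ U then (1 : ℤ) else 0) * (if v ∈ U then 1 else 0) * ad G u v = 0 := by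
    refine Finset.sum_eq_zero fun u hu => Finset.sum_eq_zero fun v _ => ?_
    rw [if_neg (Finset.mem_filter.1 hu).2]
    ring
  rw [h2, add_zero, h1]
  refine Finset.sum_congr rfl fun u hu => ?_
  rw [← Finset.sum_filter_add_sum_filter_not Finset.univ (fun v => v ∈ U), h1]
  have h3 : ∑ v ∈ Finset.univ.filter (fun v => ¬ v ∈ U),
      (if u ∈ U then (1 : ℤ) else 0) * (if v ∈ U then 1 else 0) * ad G u v = 0 := by
    refine Finset.sum_eq_zero fun v hv => ?_
    rw [if_neg (Finset.mem_filter.1 hv).2]
    ring
  rw [h3, add_zero]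
  refine Finset.sum_congr rfl fun v hv => ?_
  rw [if_pos hu, if_pos hv]
  ring

theorem ord_sign (U : Finset V) (x : V → ℤ) (hx : ∀ u, x u = if u ∈ U then 1 else -1) :
    2 * (ord G U + ord G Uᶜ) = ord G univ + ∑ u, ∑ v, x u * x v * ad G u v := by
  rw [ord_ind G U, ord_ind G Uᶜ]
  unfold ord
  rw [← Finset.sum_add_distrib, ← Finset.sum_add_distrib, Finset.mul_sum]
  refine Finset.sum_congr rfl fun u _ => ?_
  rw [← Finset.sum_add_distrib, ← Finset.sum_add_distrib, Finset.mul_sum]
  refine Finset.sum_congr rfl fun v _ => ?_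
  rw [hx u, hx v]
  simp only [Finset.mem_compl]
  by_cases hu : u ∈ U <;> by_cases hv : v ∈ U <;> simp [hu, hv] <;> ring

/-- The averaging bound. -/
theorem exists_cut_key {K : Type*} [Fintype K] [DecidableEq K] (κ : V → K) (σ : V → Bool)
    (h : ∀ u v, G.Adj u v → κ u = κ v → σ u ≠ σ v) :
    ∃ U : Finset V, 2 * (ord G U + ord G Uᶜ) ≤
      ord G univ - ∑ u, ∑ v, if κ u = κ v then ad G u v else 0 := by
  classical
  set W : ℤ := ∑ u, ∑ v, (if κ u = κ v then ad G u v else 0) with hW
  set x : (K → Bool) → V → ℤ := fun y u => sg (σ u) * sg (y (κ u)) with hx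
  have hsum : ∑ y : K → Bool, ∑ u, ∑ v, x y u * x y v * ad G u v =
      ∑ _y : K → Bool, (-W) := by
    rw [Finset.sum_const, Finset.sum_comm]
    have h1 : ∀ u, ∑ y : K → Bool, ∑ v, x y u * x y v * ad G u v =
        ∑ v, (-(if κ u = κ v then ad G u v else 0)) * ((Finset.univ : Finset (K → Bool)).card : ℤ) := by
      intro u
      rw [Finset.sum_comm]
      refine Finset.sum_congr rfl fun v _ => ?_
      have h2 : ∀ y : K → Bool, x y u * x y v * ad G u v =
          (sg (σ u) * sg (σ v) * ad G u v) * (sg (y (κ u)) * sg (y (κ v))) := by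
        intro y
        simp only [hx]
        ring
      rw [Finset.sum_congr rfl fun y _ => h2 y, ← Finset.mul_sum]
      by_cases hk : κ u = κ v
      · rw [if_pos hk, hk]
        have h3 : ∀ y : K → Bool, sg (y (κ v)) * sg (y (κ v)) = 1 := fun y => sg_mul_self _
        rw [Finset.sum_congr rfl fun y _ => h3 y, Finset.sum_const, nsmul_eq_mul, mul_one]
        congr 1
        by_cases hadj : G.Adj u v
        · have h4 := h u v hadj hk
          have h5 : sg (σ u) * sg (σ v) = -1 := by
            cases hu : σ u <;> cases hv : σ v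
            · exact absurd (hu.trans hv.symm) h4
            · rfl
            · rfl
            · exact absurd (hu.trans hv.symm) h4
          rw [h5]
          ring
        · rw [ad_of_not_adj G hadj]
          ring
      · rw [if_neg hk, sum_sg _ _ hk]
        ring
    rw [Finset.sum_congr rfl fun u _ => h1 u]
    simp only [← Finset.sum_mul, Finset.sum_neg_distrib]
    rw [nsmul_eq_mul, hW]
    ring
  obtain ⟨y, -, hy⟩ := Finset.exists_le_of_sum_le (Finset.univ_nonempty) hsum.le
  refine ⟨Finset.univ.filter (fun u => x y u = 1), ?_⟩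
  rw [ord_sign G _ (x y)]
  · linarith
  · intro u
    simp only [Finset.mem_filter, Finset.mem_univ, true_and]
    have h6 : x y u = 1 ∨ x y u = -1 := by
      simp only [hx]
      cases σ u <;> cases y (κ u)
      · left; rfl
      · right; rfl
      · right; rfl
      · left; rfl
    rcases h6 with h6 | h6
    · rw [h6]; simp
    · rw [h6]; simp

/-- Number of ordered adjacent pairs with opposite colours. -/
noncomputable def Wt {M : ℕ} (c : V → ZMod M) : ℤ :=
  ∑ u, ∑ v, if c u + c v = 0 then ad G u v else 0

/-- Number of ordered adjacent pairs with colours `i` and `j`. -/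
noncomputable def cw {M : ℕ} (c : V → ZMod M) (i j : ZMod M) : ℤ :=
  ∑ u, ∑ v, if c u = i ∧ c v = j then ad G u v else 0

theorem exists_cut_color (k : ℕ) (c : V → ZMod (2 * k + 1))
    (hc : ∀ u v, G.Adj u v → c u ≠ c v) :
    ∃ U : Finset V, 2 * (ord G U + ord G Uᶜ) ≤ ord G univ - Wt G c := by
  classical
  obtain ⟨U, hU⟩ := exists_cut_key G (fun u => if (c u).val ≤ k then c u else -c u)
    (fun u => decide ((c u).val ≤ k)) (by
      intro u v hadj hk hs
      simp only [decide_eq_decide] at hs
      apply hc u v hadj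
      by_cases h1 : (c u).val ≤ k
      · simp only [if_pos h1, if_pos (hs.1 h1)] at hk
        exact hk
      · have h2 : ¬ (c v).val ≤ k := fun h => h1 (hs.2 h)
        simp only [if_neg h1, if_neg h2] at hk
        exact neg_injective hk)
  refine ⟨U, hU.trans ?_⟩
  apply sub_le_sub_left
  unfold Wt
  refine Finset.sum_le_sum fun u _ => Finset.sum_le_sum fun v _ => ?_
  by_cases h0 : c u + c v = 0
  · rw [if_pos h0]
    by_cases hadj : G.Adj u v
    · have h1 : c v = - c u := by linear_combination h0
      have h2 : c u ≠ 0 := by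
        intro h2
        apply hc u v hadj
        rw [h1, h2, neg_zero]
      have h3 : (c v).val = 2 * k + 1 - (c u).val := by
        rw [h1, ZMod.neg_val, if_neg h2]
      have h4 : 0 < (c u).val := by
        rw [ZMod.val_pos]
        exact h2
      have h5 : (c u).val < 2 * k + 1 := ZMod.val_lt _
      rw [if_pos]
      by_cases h6 : (c u).val ≤ k
      · rw [if_pos h6, if_neg (by omega), h1, neg_neg]
      · rw [if_neg h6, if_pos (by omega), h1]
    · rw [ad_of_not_adj G hadj]
      split_ifs <;> norm_num
  · rw [if_neg h0]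
    split_ifs <;> first | exact ad_nonneg G u v | exact le_refl _

theorem Wt_eq {M : ℕ} [NeZero M] (c : V → ZMod M) : Wt G c = ∑ i, cw G c i (-i) := by
  unfold Wt cw
  conv_rhs => rw [Finset.sum_comm]
  refine Finset.sum_congr rfl fun u _ => ?_
  conv_rhs => rw [Finset.sum_comm]
  refine Finset.sum_congr rfl fun v _ => ?_
  rw [Finset.sum_eq_single (c u)]
  · refine if_congr ?_ rfl rfl
    constructor
    · intro h
      exact ⟨rfl, by linear_combination h⟩
    · rintro ⟨_, h⟩
      rw [h]
      ring
  · intro i _ hi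
    rw [if_neg]
    rintro ⟨h, _⟩
    exact hi h.symm
  · intro h
    exact absurd (Finset.mem_univ _) h

theorem cw_perm {M : ℕ} (c : V → ZMod M) (π : Equiv.Perm (ZMod M)) (i j : ZMod M) :
    cw G (fun u => π.symm (c u)) i j = cw G c (π i) (π j) := by
  unfold cw
  refine Finset.sum_congr rfl fun u _ => Finset.sum_congr rfl fun v _ => ?_
  refine if_congr ?_ rfl rfl
  rw [Equiv.symm_apply_eq, Equiv.symm_apply_eq]

theorem cw_comm {M : ℕ} (c : V → ZMod M) (i j : ZMod M) : cw G c i j = cw G c j i := by
  unfold cw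
  rw [Finset.sum_comm]
  refine Finset.sum_congr rfl fun u _ => Finset.sum_congr rfl fun v _ => ?_
  rw [ad_comm]
  exact if_congr and_comm rfl rfl

theorem cw_self {M : ℕ} (c : V → ZMod M) (hc : ∀ u v, G.Adj u v → c u ≠ c v) (i : ZMod M) :
    cw G c i i = 0 := by
  unfold cw
  refine Finset.sum_eq_zero fun u _ => Finset.sum_eq_zero fun v _ => ?_
  split_ifs with h
  · refine ad_of_not_adj G fun hadj => hc u v hadj ?_
    rw [h.1, h.2]
  · rfl

theorem cw_sum {M : ℕ} [NeZero M] (c : V → ZMod M) : ∑ i, ∑ j, cw G c i j = ord G univ := by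
  unfold cw ord
  have h1 : ∀ i : ZMod M, ∑ j : ZMod M, ∑ u, ∑ v, (if c u = i ∧ c v = j then ad G u v else 0) =
      ∑ u, ∑ v, if c u = i then ad G u v else 0 := by
    intro i
    rw [Finset.sum_comm]
    refine Finset.sum_congr rfl fun u _ => ?_
    rw [Finset.sum_comm]
    refine Finset.sum_congr rfl fun v _ => ?_
    by_cases h : c u = i
    · simp [h]
    · simp [h]
  rw [Finset.sum_congr rfl fun i _ => h1 i, Finset.sum_comm]
  refine Finset.sum_congr rfl fun u _ => ?_
  rw [Finset.sum_comm]
  refine Finset.sum_congr rfl fun v _ => ?_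
  simp

end Cut

end Pool.Agent.MP_710317_co
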