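import Pool.Agent.MP_710317_co.Basic

/-! The flip lemma: a maximum cut with the most balanced inner edge numbers. -/

namespace Pool.Agent.MP_710317_co

open Finset

section Flip

variable {V : Type*} [Fintype V] [DecidableEq V] (G : SimpleGraph V)

/-- Edges inside the parts plus the cut, counted twice. -/
theorem ord_split (U : Finset V) :
    ord G univ = ord G U + ord G Uᶜ + 2 * ∑ v ∈ U, nb G Uᶜ v := by
  have h1 : ∀ v, nb G univ v = nb G U v + nb G Uᶜ v := by
    intro v
    unfold nb
    exact (Finset.sum_add_sum_compl U _).symm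
  have h2 : ord G univ = ∑ v ∈ U, nb G univ v + ∑ v ∈ Uᶜ, nb G univ v := by
    rw [ord_eq_sum_nb]
    exact (Finset.sum_add_sum_compl U _).symm
  have h3 : ∑ v ∈ Uᶜ, nb G U v = ∑ v ∈ U, nb G Uᶜ v := by
    unfold nb
    rw [Finset.sum_comm]
    refine Finset.sum_congr rfl fun u _ => Finset.sum_congr rfl fun v _ => ad_comm G v u
  rw [h2, Finset.sum_congr rfl fun v _ => h1 v, Finset.sum_congr rfl fun v _ => h1 v,
    Finset.sum_add_distrib, Finset.sum_add_distrib, h3, ← ord_eq_sum_nb, ← ord_eq_sum_nb]
  ring

omit [Fintype V] in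
theorem ord_erase {U : Finset V} {v : V} (hv : v ∈ U) :
    ord G (U.erase v) = ord G U - 2 * nb G U v := by
  have h1 : v ∉ U.erase v := Finset.notMem_erase v U
  have h2 := ord_insert G h1
  have h3 := nb_insert G h1
  rw [Finset.insert_erase hv] at h2 h3
  rw [h3]
  linarith

theorem ord_compl_erase {U : Finset V} {v : V} (hv : v ∈ U) :
    ord G (U.erase v)ᶜ = ord G Uᶜ + 2 * nb G Uᶜ v := by
  rw [Finset.compl_erase]
  exact ord_insert G (by simpa using hv)

/-- There is a maximum cut whose difference is the smallest one in absolute value. -/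
theorem exists_best : ∃ U : Finset V,
    (∀ W : Finset V, ord G U + ord G Uᶜ ≤ ord G W + ord G Wᶜ) ∧
    (∀ W : Finset V, ord G W + ord G Wᶜ = ord G U + ord G Uᶜ →
      ord G U - ord G Uᶜ ≤ |ord G W - ord G Wᶜ|) ∧ ord G Uᶜ ≤ ord G U := by
  obtain ⟨U0, -, hU0⟩ := Finset.exists_min_image (Finset.univ : Finset (Finset V))
    (fun W => ord G W + ord G Wᶜ) ⟨∅, Finset.mem_univ _⟩
  obtain ⟨U1, hU1, hU1'⟩ := Finset.exists_min_image
    ((Finset.univ : Finset (Finset V)).filter
      (fun W => ord G W + ord G Wᶜ = ord G U0 + ord G U0ᶜ))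
    (fun W => |ord G W - ord G Wᶜ|) ⟨U0, by simp⟩
  have h1 : ord G U1 + ord G U1ᶜ = ord G U0 + ord G U0ᶜ := (Finset.mem_filter.1 hU1).2
  have h2 : ∀ W : Finset V, ord G W + ord G Wᶜ = ord G U1 + ord G U1ᶜ →
      |ord G U1 - ord G U1ᶜ| ≤ |ord G W - ord G Wᶜ| := by
    intro W hW
    exact hU1' W (Finset.mem_filter.2 ⟨Finset.mem_univ _, by rw [hW, h1]⟩)
  rcases le_total (ord G U1ᶜ) (ord G U1) with h | h
  · refine ⟨U1, ?_, ?_, h⟩
    · intro W
      rw [h1]
      exact hU0 W (Finset.mem_univ _)
    · intro W hW
      exact (le_abs_self _).trans (h2 W hW)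
  · refine ⟨U1ᶜ, ?_, ?_, ?_⟩
    · intro W
      rw [compl_compl, add_comm, h1]
      exact hU0 W (Finset.mem_univ _)
    · intro W hW
      rw [compl_compl] at hW ⊢
      rw [add_comm (ord G U1ᶜ)] at hW
      refine le_trans ?_ (h2 W hW)
      rw [abs_sub_comm]
      exact le_abs_self _
    · rw [compl_compl]
      exact h

/-- The flip lemma. -/
theorem flip (m : ℤ) (hm : ord G univ = 2 * m) : ∃ (U : Finset V) (s d : ℤ),
    (∀ W : Finset V, 2 * s ≤ ord G W + ord G Wᶜ) ∧ ord G U = s + d ∧ ord G Uᶜ = s - d ∧
    (∃ e : ℤ, s + d = 2 * e) ∧ 0 ≤ d ∧ d ≤ s ∧ d ≤ m - 2 * s ∧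
    (2 * d ^ 2 ≤ s + d * (m - 2 * s) ∨ s + d ≤ (m - 2 * s - d) * (m - 2 * s - d - 1)) := by
  classical
  obtain ⟨U, hmin, hbal, hle⟩ := exists_best G
  set e1 : ℤ := (inside G (U : Set V) : ℤ) with he1
  set e2 : ℤ := (inside G ((Uᶜ : Finset V) : Set V) : ℤ) with he2
  have h1 : ord G U = 2 * e1 := ord_eq_inside G U
  have h2 : ord G Uᶜ = 2 * e2 := ord_eq_inside G Uᶜ
  have he2n : 0 ≤ e2 := Int.natCast_nonneg _
  set c : ℤ := ∑ v ∈ U, nb G Uᶜ v with hc
  have hsplit := ord_split G U
  rw [hm, h1, h2, ← hc] at hsplit
  have hc' : c = m - (e1 + e2) := by linarith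
  have hflip : ∀ v ∈ U, nb G U v ≤ nb G Uᶜ v := by
    intro v hv
    have h3 := hmin (U.erase v)
    rw [ord_erase G hv, ord_compl_erase G hv] at h3
    linarith
  have hsum : ord G U ≤ c := by
    rw [ord_eq_sum_nb]
    exact Finset.sum_le_sum hflip
  refine ⟨U, e1 + e2, e1 - e2, ?_, ?_, ?_, ⟨e1, by ring⟩, ?_, ?_, ?_, ?_⟩
  · intro W
    have := hmin W
    rw [h1, h2] at this
    linarith
  · rw [h1]; ring
  · rw [h2]; ring
  · rw [h1, h2] at hle
    linarith
  · linarith
  · rw [h1] at hsum
    linarith
  · have hd0 : 0 ≤ e1 - e2 := by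
      rw [h1, h2] at hle
      linarith
    set P := U.filter (fun v => nb G U v < nb G Uᶜ v) with hP
    set Z := U.filter (fun v => nb G U v = nb G Uᶜ v ∧ 0 < nb G U v) with hZ
    have hPcard : (P.card : ℤ) ≤ m - 2 * (e1 + e2) - (e1 - e2) := by
      have h3 : (P.card : ℤ) ≤ ∑ v ∈ U, (nb G Uᶜ v - nb G U v) := by
        rw [Finset.card_eq_sum_ones, Nat.cast_sum, hP, Finset.sum_filter]
        refine Finset.sum_le_sum fun v hv => ?_
        have h4 := hflip v hv
        split_ifs with h5
        · push_cast
          linarith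
        · linarith
      rw [Finset.sum_sub_distrib, ← ord_eq_sum_nb, ← hc, h1] at h3
      linarith
    have hpos : ∀ v ∈ U, 0 < nb G U v → v ∈ P ∨ v ∈ Z := by
      intro v hv hv0
      rcases lt_or_eq_of_le (hflip v hv) with h3 | h3
      · left
        rw [hP, Finset.mem_filter]
        exact ⟨hv, h3⟩
      · right
        rw [hZ, Finset.mem_filter]
        exact ⟨hv, h3, hv0⟩
    rcases Finset.eq_empty_or_nonempty Z with hZe | hZne
    · right
      -- all inner edges lie inside `P`
      have h3 : ∀ v ∈ U, nb G U v ≤ if v ∈ P then (P.card : ℤ) - 1 else 0 := by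
        intro v hv
        by_cases hv0 : 0 < nb G U v
        · have hvP : v ∈ P := by
            rcases hpos v hv hv0 with h | h
            · exact h
            · rw [hZe] at h
              exact absurd h (Finset.notMem_empty v)
          rw [if_pos hvP]
          have h4 : nb G U v ≤ ∑ w ∈ P.erase v, 1 := by
            unfold nb
            have h5 : ∀ w ∈ U, ad G v w ≤ if w ∈ P.erase v then 1 else 0 := by
              intro w hw
              by_cases hadj : G.Adj v w
              · have h6 : w ∈ P.erase v := by
                  rw [Finset.mem_erase]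
                  refine ⟨hadj.ne', ?_⟩
                  have h7 : 0 < nb G U w := by
                    have h8 : ad G w v ≤ nb G U w :=
                      Finset.single_le_sum (fun u _ => ad_nonneg G w u) hv
                    rw [ad_of_adj G hadj.symm] at h8
                    linarith
                  rcases hpos w hw h7 with h | h
                  · exact h
                  · rw [hZe] at h
                    exact absurd h (Finset.notMem_empty w)
                rw [if_pos h6, ad_of_adj G hadj]
              · rw [ad_of_not_adj G hadj]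
                split_ifs <;> norm_num
            refine (Finset.sum_le_sum h5).trans ?_
            rw [← Finset.sum_filter]
            refine Finset.sum_le_sum_of_subset_of_nonneg ?_ (fun _ _ _ => by norm_num)
            intro w hw
            exact (Finset.mem_filter.1 hw).2
          rw [Finset.sum_const, Finset.card_erase_of_mem hvP, nsmul_eq_mul, mul_one] at h4
          have h5 : 1 ≤ P.card := Finset.card_pos.2 ⟨v, hvP⟩
          rw [Nat.cast_sub h5] at h4
          exact_mod_cast h4
        · have h4 := nb_nonneg G U v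
          have h5 : nb G U v = 0 := le_antisymm (not_lt.1 hv0) h4
          rw [h5]
          split_ifs with h6
          · have h7 : 1 ≤ P.card := Finset.card_pos.2 ⟨v, h6⟩
            have h8 : (1 : ℤ) ≤ P.card := by exact_mod_cast h7
            linarith
          · exact le_refl _
      have h4 : ord G U ≤ P.card * ((P.card : ℤ) - 1) := by
        rw [ord_eq_sum_nb]
        refine (Finset.sum_le_sum h3).trans ?_
        rw [← Finset.sum_filter, Finset.sum_const, nsmul_eq_mul]
        have h5 : U.filter (fun v => v ∈ P) = P := by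
          ext v
          simp only [Finset.mem_filter]
          constructor
          · exact fun h => h.2
          · intro h
            exact ⟨(Finset.mem_filter.1 h).1, h⟩
        rw [h5]
      rw [h1] at h4
      have h5 : (0 : ℤ) ≤ P.card := Int.natCast_nonneg _
      have h6 : e1 + e2 + (e1 - e2) = 2 * e1 := by ring
      rw [h6]
      rcases Nat.eq_zero_or_pos P.card with h7 | h7
      · rw [h7] at h4 hPcard
        push_cast at h4 hPcard
        -- `e1 = 0`
        have h8 : 0 ≤ e1 := Int.natCast_nonneg _
        have h9 : e1 = 0 := by linarith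
        have h10 : e2 = 0 := by linarith
        rw [h9, h10] at hPcard ⊢
        rcases eq_or_lt_of_le hPcard with h11 | h11
        · rw [← h11]; norm_num
        · have h12 : 1 ≤ m - 2 * (0 + 0) - (0 - 0) := by linarith
          nlinarith
      · have h8 : (1 : ℤ) ≤ P.card := by exact_mod_cast h7
        nlinarith
    · left
      obtain ⟨v, hv⟩ := hZne
      have hvU : v ∈ U := (Finset.mem_filter.1 hv).1
      have hZd : ∀ z ∈ Z, e1 - e2 ≤ nb G U z := by
        intro z hz
        obtain ⟨hzU, hzeq, hz0⟩ := Finset.mem_filter.1 hz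
        have h3 := hbal (U.erase z) (by
          rw [ord_erase G hzU, ord_compl_erase G hzU, hzeq]
          ring)
        rw [ord_erase G hzU, ord_compl_erase G hzU, ← hzeq, h1, h2] at h3
        have h4 : 2 * e1 - 2 * nb G U z - (2 * e2 + 2 * nb G U z) =
            2 * (e1 - e2) - 4 * nb G U z := by ring
        rw [h4] at h3
        rcases abs_cases (2 * (e1 - e2) - 4 * nb G U z) with ⟨h5, _⟩ | ⟨h5, _⟩
        · rw [h5] at h3
          linarith
        · rw [h5] at h3
          linarith
      -- neighbours of `v` in `U`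
      set A := U.filter (fun w => G.Adj v w) with hA
      have hAcard : (A.card : ℤ) = nb G U v := by
        rw [Finset.card_eq_sum_ones, Nat.cast_sum, hA, Finset.sum_filter]
        unfold nb ad
        refine Finset.sum_congr rfl fun w _ => ?_
        split_ifs <;> rfl
      have hAsub : A ⊆ P ∪ Z := by
        intro w hw
        obtain ⟨hwU, hadj⟩ := Finset.mem_filter.1 hw
        have h7 : 0 < nb G U w := by
          have h8 : ad G w v ≤ nb G U w :=
            Finset.single_le_sum (fun u _ => ad_nonneg G w u) hvU
          rw [ad_of_adj G hadj.symm] at h8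
          linarith
        exact Finset.mem_union.2 (hpos w hwU h7)
      have hAv : v ∉ A := by
        intro h
        exact G.loopless.irrefl v (Finset.mem_filter.1 h).2
      have hcard : (A.card : ℤ) + 1 ≤ P.card + Z.card := by
        have h3 : insert v A ⊆ P ∪ Z := by
          intro w hw
          rcases Finset.mem_insert.1 hw with h | h
          · rw [h]
            exact Finset.mem_union_right _ hv
          · exact hAsub h
        have h4 := (Finset.card_le_card h3).trans (Finset.card_union_le P Z)
        rw [Finset.card_insert_of_notMem hAv] at h4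
        exact_mod_cast h4
      have hZsum : (Z.card : ℤ) * (e1 - e2) ≤ ord G U := by
        rw [ord_eq_sum_nb]
        have h3 : ∑ z ∈ Z, (e1 - e2) ≤ ∑ z ∈ Z, nb G U z := Finset.sum_le_sum hZd
        rw [Finset.sum_const, nsmul_eq_mul] at h3
        refine h3.trans ?_
        exact Finset.sum_le_sum_of_subset_of_nonneg (Finset.filter_subset _ _)
          (fun z _ _ => nb_nonneg G U z)
      have hvd := hZd v hv
      have hZc : 2 * (e1 - e2) + 1 - (m - 2 * (e1 + e2)) ≤ Z.card := by linarith
      rw [h1] at hZsum
      nlinarith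

end Flip

end Pool.Agent.MP_710317_co
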