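import Mathlib

/-! Numerical lemmas. -/

namespace Pool.Agent.MP_710317_co

/-- Inner edges of a maximum cut, odd case. -/
theorem num_odd (k s d w : ℤ) (hk : 1 ≤ k) (hs : s ≤ k ^ 2 - 1) (hw : w = 2 * k ^ 2 + k - 2 * s)
    (hd0 : 0 ≤ d) (hds : d ≤ s) (hdw : d ≤ w)
    (h : 2 * d ^ 2 ≤ s + d * w ∨ s + d ≤ (w - d) * (w - d - 1)) :
    s ^ 2 + d ^ 2 < k ^ 4 + k ^ 2 := by
  obtain ⟨t, ht⟩ : ∃ t, t = k ^ 2 - s := ⟨_, rfl⟩
  have hst : s = k ^ 2 - t := by linarith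
  have hwt : w = k + 2 * t := by linarith
  have ht1 : 1 ≤ t := by linarith
  by_cases hA : 2 * s ^ 2 < k ^ 4 + k ^ 2
  · nlinarith
  rw [not_lt] at hA
  have hs0 : 0 ≤ s := hd0.trans hds
  have h10 : 10 * t ≤ 3 * k ^ 2 := by
    by_contra hcon
    rw [not_le] at hcon
    have h1 : 10 * s ≤ 7 * k ^ 2 := by linarith
    have h2 : (10 * s) * (10 * s) ≤ (7 * k ^ 2) * (7 * k ^ 2) :=
      mul_le_mul h1 h1 (by linarith) (by positivity)
    have h3 : 0 < k ^ 2 := by positivity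
    nlinarith
  have hgoal : d ^ 2 < k ^ 2 * (1 + 2 * t) - t ^ 2 → s ^ 2 + d ^ 2 < k ^ 4 + k ^ 2 := by
    intro hd
    rw [hst]
    nlinarith
  apply hgoal
  rcases h with h | h
  · have h3 : 3 * d ^ 2 ≤ 2 * s + w ^ 2 := by nlinarith [sq_nonneg (d - w)]
    have h4 : 0 < 6 * k ^ 2 - 4 * k + 2 - 7 * t := by nlinarith
    have h5 : 0 < t * (6 * k ^ 2 - 4 * k + 2 - 7 * t) := mul_pos (by linarith) h4
    rw [hst, hwt] at h3
    nlinarith
  · have h3 : s + w ≤ (w - d) ^ 2 := by nlinarith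
    have h4 : k + 1 ≤ w - d := by
      by_contra hcon
      rw [not_le] at hcon
      have h5 : w - d ≤ k := by linarith
      have h6 : (w - d) ^ 2 ≤ k ^ 2 := by
        apply pow_le_pow_left₀ (by linarith) h5
      rw [hst, hwt] at h3
      nlinarith
    have h5 : d ≤ 2 * t - 1 := by linarith
    have h6 : d ^ 2 ≤ (2 * t - 1) ^ 2 := pow_le_pow_left₀ hd0 h5 2
    have h7 : 10 * t * t ≤ 3 * k ^ 2 * t := mul_le_mul_of_nonneg_right h10 (by linarith)
    have h8 : 1 ≤ k ^ 2 := by nlinarith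
    nlinarith

/-- Inner edges of a maximum cut, even case. -/
theorem num_even (k s d w : ℤ) (hk : 3 ≤ k) (hs : s ≤ k ^ 2 - k - 1)
    (hw : w = 2 * k ^ 2 - k - 2 * s) (hd0 : 0 ≤ d) (hds : d ≤ s) (hdw : d ≤ w)
    (h : 2 * d ^ 2 ≤ s + d * w ∨ s + d ≤ (w - d) * (w - d - 1)) :
    s ^ 2 + d ^ 2 < (k ^ 2 - k) ^ 2 := by
  obtain ⟨R, hR⟩ : ∃ R, R = k ^ 2 - k := ⟨_, rfl⟩
  obtain ⟨t, ht⟩ : ∃ t, t = R - s := ⟨_, rfl⟩
  have hst : s = R - t := by linarith
  have hwt : w = k + 2 * t := by linarith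
  have ht1 : 1 ≤ t := by linarith
  have hR6 : 6 ≤ R := by nlinarith
  rw [← hR]
  by_cases hA : 2 * s ^ 2 < R ^ 2
  · nlinarith
  rw [not_lt] at hA
  have hs0 : 0 ≤ s := hd0.trans hds
  have h10 : 10 * t ≤ 3 * R := by
    by_contra hcon
    rw [not_le] at hcon
    have h1 : 10 * s ≤ 7 * R := by linarith
    have h2 : (10 * s) * (10 * s) ≤ (7 * R) * (7 * R) :=
      mul_le_mul h1 h1 (by linarith) (by positivity)
    nlinarith
  have hgoal : d ^ 2 < 2 * R * t - t ^ 2 → s ^ 2 + d ^ 2 < R ^ 2 := by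
    intro hd
    rw [hst]
    nlinarith
  rcases h with h | h
  · rcases eq_or_lt_of_le hk with hk3 | hk4
    · -- `k = 3`
      subst hk3
      have h1 : R = 6 := by rw [hR]; norm_num
      have h2 : t = 1 := by
        rw [h1] at h10
        omega
      subst h1 h2
      have h3 : s = 5 := by linarith
      have h4 : w = 5 := by linarith
      subst h3 h4
      have h5 : d ≤ 3 := by
        by_contra hcon
        rw [not_le] at hcon
        have h6 : 4 ≤ d := hcon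
        nlinarith
      nlinarith
    · apply hgoal
      have h3 : 3 * d ^ 2 ≤ 2 * s + w ^ 2 := by nlinarith [sq_nonneg (d - w)]
      have h4 : 0 < 3 * k ^ 2 - 8 * k - 5 := by nlinarith
      have h5 : 0 ≤ (t - 1) * (6 * R - 4 * k - 5 - 7 * t) := by
        apply mul_nonneg (by linarith)
        nlinarith
      rw [hst, hwt] at h3
      nlinarith
  · apply hgoal
    have h3 : s + w ≤ (w - d) ^ 2 := by nlinarith
    have h4 : k + 1 ≤ w - d := by
      by_contra hcon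
      rw [not_le] at hcon
      have h5 : w - d ≤ k := by linarith
      have h6 : (w - d) ^ 2 ≤ k ^ 2 := by
        apply pow_le_pow_left₀ (by linarith) h5
      rw [hst, hwt, hR] at h3
      nlinarith
    have h5 : d ≤ 2 * t - 1 := by linarith
    have h6 : d ^ 2 ≤ (2 * t - 1) ^ 2 := pow_le_pow_left₀ hd0 h5 2
    have h7 : 10 * t * t ≤ 3 * R * t := mul_le_mul_of_nonneg_right h10 (by linarith)
    nlinarith

theorem num_four (s d w : ℤ) (hs : s ≤ 2) (hw : w = 6 - 2 * s) (hd0 : 0 ≤ d) (hds : d ≤ s)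
    (he : ∃ e : ℤ, s + d = 2 * e)
    (h : 2 * d ^ 2 ≤ s + d * w ∨ s + d ≤ (w - d) * (w - d - 1)) :
    s ^ 2 + d ^ 2 ≤ 4 := by
  have hs0 : 0 ≤ s := hd0.trans hds
  obtain ⟨e, he⟩ := he
  subst hw
  interval_cases s
  · have : d = 0 := by omega
    subst this
    norm_num
  · have : d = 1 := by omega
    subst this
    norm_num
  · have h1 : d = 0 ∨ d = 2 := by omega
    rcases h1 with h1 | h1
    · subst h1
      norm_num
    · subst h1
      norm_num at h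

theorem two_choose (n : ℕ) : 2 * ((n.choose 2 : ℕ) : ℤ) = n * (n - 1) := by
  induction n with
  | zero => norm_num
  | succ n ih =>
    rw [Nat.choose_succ_succ' n 1, Nat.choose_one_right]
    push_cast
    linarith

/-- The value for the complete graph. -/
def val (n : ℕ) : ℕ := (n / 2).choose 2 ^ 2 + ((n + 1) / 2).choose 2 ^ 2

theorem val_even (k : ℕ) : 4 * (val (2 * k) : ℤ) = 2 * ((k : ℤ) ^ 2 - k) ^ 2 := by
  unfold val
  have h1 : 2 * k / 2 = k := by omega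
  have h2 : (2 * k + 1) / 2 = k := by omega
  rw [h1, h2]
  have h3 := two_choose k
  push_cast
  have h4 : ((k : ℤ) ^ 2 - k) = 2 * ((k.choose 2 : ℕ) : ℤ) := by rw [h3]; ring
  rw [h4]
  ring

theorem val_odd (k : ℕ) : 4 * (val (2 * k + 1) : ℤ) = 2 * ((k : ℤ) ^ 4 + k ^ 2) := by
  unfold val
  have h1 : (2 * k + 1) / 2 = k := by omega
  have h2 : (2 * k + 1 + 1) / 2 = k + 1 := by omega
  rw [h1, h2]
  have h3 := two_choose k
  have h4 := two_choose (k + 1)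
  push_cast at h4 ⊢
  have h5 : 4 * (((k.choose 2 : ℕ) : ℤ) ^ 2 + (((k + 1).choose 2 : ℕ) : ℤ) ^ 2) =
      (2 * ((k.choose 2 : ℕ) : ℤ)) ^ 2 + (2 * (((k + 1).choose 2 : ℕ) : ℤ)) ^ 2 := by ring
  rw [h5, h3, h4]
  ring

/-- Balanced splitting is the best one for the complete graph. -/
theorem val_le (n : ℕ) (a b : ℕ) (hab : a + b = n) :
    4 * (val n : ℤ) ≤ ((a : ℤ) ^ 2 - a) ^ 2 + ((b : ℤ) ^ 2 - b) ^ 2 := by
  rcases Nat.even_or_odd' n with ⟨k, rfl | rfl⟩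
  · rw [val_even]
    obtain ⟨e, he⟩ : ∃ e : ℤ, e = a - k := ⟨_, rfl⟩
    have ha : (a : ℤ) = k + e := by linarith
    have hb : (b : ℤ) = k - e := by
      have : (a : ℤ) + b = 2 * k := by exact_mod_cast hab
      linarith
    rw [ha, hb]
    have h1 : ((k + e : ℤ) ^ 2 - (k + e)) ^ 2 + ((k - e : ℤ) ^ 2 - (k - e)) ^ 2 -
        2 * ((k : ℤ) ^ 2 - k) ^ 2 = 2 * e ^ 2 * (6 * (k ^ 2 - k) + 1 + e ^ 2) := by ring
    have h2 : (0 : ℤ) ≤ k ^ 2 - k := by
      rcases Nat.eq_zero_or_pos k with h | h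
      · subst h; norm_num
      · have : (1 : ℤ) ≤ k := by exact_mod_cast h
        nlinarith
    have h3 : 0 ≤ 2 * e ^ 2 * (6 * ((k : ℤ) ^ 2 - k) + 1 + e ^ 2) := by positivity
    linarith
  · rw [val_odd]
    obtain ⟨e, he⟩ : ∃ e : ℤ, e = a - k := ⟨_, rfl⟩
    have ha : (a : ℤ) = k + e := by linarith
    have hb : (b : ℤ) = k + 1 - e := by
      have : (a : ℤ) + b = 2 * k + 1 := by exact_mod_cast hab
      linarith
    rw [ha, hb]
    have h1 : ((k + e : ℤ) ^ 2 - (k + e)) ^ 2 + ((k + 1 - e : ℤ) ^ 2 - (k + 1 - e)) ^ 2 -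
        2 * ((k : ℤ) ^ 4 + k ^ 2) = (e ^ 2 - e) * (12 * k ^ 2 + 2 * (e ^ 2 - e)) := by ring
    have h2 : (0 : ℤ) ≤ e ^ 2 - e := by
      rcases le_or_gt e 0 with h | h
      · nlinarith
      · have : 1 ≤ e := h
        nlinarith
    have h3 : 0 ≤ (e ^ 2 - e) * (12 * (k : ℤ) ^ 2 + 2 * (e ^ 2 - e)) := by positivity
    linarith

end Pool.Agent.MP_710317_co
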