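import Pool.Agent.MP_710317_co.Basic
import Pool.Agent.MP_710317_co.Num

/-! Complete graphs with isolated vertices. -/

set_option linter.unusedSectionVars false

namespace Pool.Agent.MP_710317_co

open Finset

section Kn

variable {V : Type*} [Fintype V] [DecidableEq V] (G : SimpleGraph V)

theorem ord_complete (S : Finset V) (h : ∀ u v, G.Adj u v ↔ u ≠ v ∧ u ∈ S ∧ v ∈ S)
    (U : Finset V) : ord G U = ((U ∩ S).card : ℤ) ^ 2 - (U ∩ S).card := by
  have h1 : ∀ u v, ad G u v = (if u ∈ S then 1 else 0) * (if v ∈ S then 1 else 0) -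
      (if u = v then (if u ∈ S then 1 else 0) else 0) := by
    intro u v
    by_cases huv : u = v
    · subst huv
      rw [ad_self]
      by_cases hu : u ∈ S <;> simp [hu]
    · by_cases hu : u ∈ S <;> by_cases hv : v ∈ S
      · rw [ad_of_adj G ((h u v).2 ⟨huv, hu, hv⟩)]
        simp [huv, hu, hv]
      · rw [ad_of_not_adj G (fun k => hv ((h u v).1 k).2.2)]
        simp [huv, hu, hv]
      · rw [ad_of_not_adj G (fun k => hu ((h u v).1 k).2.1)]
        simp [huv, hu, hv]
      · rw [ad_of_not_adj G (fun k => hu ((h u v).1 k).2.1)]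
        simp [huv, hu, hv]
  have h2 : ∑ u ∈ U, (if u ∈ S then (1 : ℤ) else 0) = (U ∩ S).card := by
    rw [← Finset.sum_filter, Finset.sum_const, nsmul_eq_mul, mul_one, Finset.filter_mem_eq_inter]
  unfold ord
  have h3 : ∀ u ∈ U, ∑ v ∈ U, ad G u v =
      (if u ∈ S then 1 else 0) * ((U ∩ S).card : ℤ) - (if u ∈ S then 1 else 0) := by
    intro u hu
    rw [Finset.sum_congr rfl fun v _ => h1 u v, Finset.sum_sub_distrib, ← Finset.mul_sum, h2,
      Finset.sum_ite_eq U u, if_pos hu]
  rw [Finset.sum_congr rfl h3, Finset.sum_sub_distrib, ← Finset.sum_mul, h2]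
  ring

/-- The value of a complete graph with isolated vertices. -/
theorem qval_complete (S : Finset V) (h : ∀ u v, G.Adj u v ↔ u ≠ v ∧ u ∈ S ∧ v ∈ S) :
    qval G = val S.card := by
  have hge : 4 * (val S.card : ℤ) ≤ 4 * (qval G : ℤ) := by
    obtain ⟨U, hU⟩ := exists_qval G
    rw [hU, ord_complete G S h, ord_complete G S h]
    refine val_le _ _ _ ?_
    rw [Finset.inter_comm U, Finset.inter_comm Uᶜ, ← Finset.sdiff_eq_inter_compl]
    exact Finset.card_inter_add_card_sdiff S U
  have hle : 4 * (qval G : ℤ) ≤ 4 * (val S.card : ℤ) := by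
    obtain ⟨U, hUS, hU⟩ := Finset.exists_subset_card_eq (Nat.div_le_self S.card 2)
    refine (qval_le G U).trans ?_
    rw [ord_complete G S h, ord_complete G S h]
    have h1 : U ∩ S = U := Finset.inter_eq_left.2 hUS
    have h2 : (Uᶜ ∩ S).card = (S.card + 1) / 2 := by
      rw [Finset.inter_comm Uᶜ, ← Finset.sdiff_eq_inter_compl, Finset.card_sdiff_of_subset hUS, hU]
      omega
    rw [h1, h2, hU]
    unfold val
    have h3 := two_choose (S.card / 2)
    have h4 := two_choose ((S.card + 1) / 2)
    push_cast
    have h5 : 4 * ((((S.card / 2).choose 2 : ℕ) : ℤ) ^ 2 +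
        ((((S.card + 1) / 2).choose 2 : ℕ) : ℤ) ^ 2) =
      (2 * (((S.card / 2).choose 2 : ℕ) : ℤ)) ^ 2 +
        (2 * ((((S.card + 1) / 2).choose 2 : ℕ) : ℤ)) ^ 2 := by ring
    rw [h5, h3, h4]
    push_cast
    apply le_of_eq
    ring
  have : (val S.card : ℤ) = (qval G : ℤ) := by linarith
  exact_mod_cast this.symm

/-- Proper colourings with `N` colours exist. -/
def Col (N : ℕ) : Prop := ∃ c : V → Fin N, ∀ u v, G.Adj u v → c u ≠ c v

theorem col_mono {N N' : ℕ} (h : N ≤ N') (hN : Col G N) : Col G N' := by
  obtain ⟨c, hc⟩ := hN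
  refine ⟨fun u => Fin.castLE h (c u), fun u v huv he => hc u v huv ?_⟩
  exact Fin.castLE_injective h he

theorem col_avoid {N : ℕ} (c : V → Fin N) (hc : ∀ u v, G.Adj u v → c u ≠ c v) (i : Fin N)
    (hi : ∀ u, c u ≠ i) : Col G (N - 1) := by
  have hcard : Fintype.card {x : Fin N // x ≠ i} = N - 1 := by
    rw [Fintype.card_subtype_compl, Fintype.card_fin, Fintype.card_subtype_eq]
  let e := Fintype.equivFinOfCardEq hcard
  refine ⟨fun u => e ⟨c u, hi u⟩, fun u v huv he => hc u v huv ?_⟩
  exact congrArg Subtype.val (e.injective he)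

theorem exists_col : ∃ N, Col G N := by
  refine ⟨Fintype.card V, Fintype.equivFin V, fun u v huv he => huv.ne ?_⟩
  exact (Fintype.equivFin V).injective he

theorem complete_of_not_col (n : ℕ) (hn : 2 ≤ n) (hm : ord G univ = (n : ℤ) * (n - 1))
    (hcol : ¬ Col G (n - 1)) :
    ∃ S : Finset V, S.card = n ∧ ∀ u v, G.Adj u v ↔ u ≠ v ∧ u ∈ S ∧ v ∈ S := by
  classical
  obtain ⟨N, hN, hmin⟩ : ∃ N, Col G N ∧ ¬ Col G (N - 1) := by
    have hex := exists_col G
    have h1 := Nat.find_spec hex
    refine ⟨Nat.find hex, h1, ?_⟩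
    intro h2
    have h3 : Nat.find hex ≤ Nat.find hex - 1 := Nat.find_min' hex h2
    have h4 : Nat.find hex = 0 := by omega
    rw [h4] at h1
    exact hcol (col_mono G (Nat.zero_le _) h1)
  have hnN : n ≤ N := by
    by_contra hcon
    exact hcol (col_mono G (by omega) hN)
  obtain ⟨c, hc⟩ := hN
  have hedge : ∀ i j : Fin N, i ≠ j → ∃ u v, G.Adj u v ∧ c u = i ∧ c v = j := by
    intro i j hij
    by_contra hcon
    push Not at hcon
    apply hmin
    refine col_avoid G (fun u => if c u = i then j else c u) ?_ i ?_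
    · intro u v huv he
      by_cases hu : c u = i
      · have hv : c v ≠ i := by
          intro hv
          exact hc u v huv (hu.trans hv.symm)
        simp only [if_pos hu, if_neg hv] at he
        exact hcon u v huv hu he.symm
      · by_cases hv : c v = i
        · simp only [if_pos hv, if_neg hu] at he
          exact hcon v u huv.symm hv he
        · simp only [if_neg hv, if_neg hu] at he
          exact hc u v huv he
    · intro u
      by_cases hu : c u = i
      · simp only [if_pos hu]
        exact hij.symm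
      · simp only [if_neg hu]
        exact hu
  set D : Finset (V × V) := Finset.univ.filter (fun p => G.Adj p.1 p.2) with hD
  have hDcard : (D.card : ℤ) = (n : ℤ) * (n - 1) := by
    rw [← hm, hD, Finset.card_eq_sum_ones, Nat.cast_sum, Finset.sum_filter]
    unfold ord ad
    rw [← Finset.univ_product_univ, Finset.sum_product]
    refine Finset.sum_congr rfl fun u _ => Finset.sum_congr rfl fun v _ => ?_
    split_ifs <;> rfl
  set T : Finset (Fin N × Fin N) := (Finset.univ : Finset (Fin N)).offDiag with hT
  have hTcard : (T.card : ℤ) = (N : ℤ) * (N - 1) := by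
    rw [hT, Finset.offDiag_card, Finset.card_univ, Fintype.card_fin,
      Nat.cast_sub (Nat.le_mul_self N)]
    push_cast
    ring
  have hsurj : Set.SurjOn (fun p : V × V => (c p.1, c p.2)) D T := by
    rintro ⟨i, j⟩ hij
    rw [Finset.mem_coe, hT, Finset.mem_offDiag] at hij
    obtain ⟨u, v, huv, hu, hv⟩ := hedge i j hij.2.2
    refine ⟨(u, v), ?_, ?_⟩
    · simp [hD, huv]
    · simp [hu, hv]
  have hmaps : Set.MapsTo (fun p : V × V => (c p.1, c p.2)) D T := by
    rintro ⟨u, v⟩ huv
    rw [Finset.mem_coe, hD, Finset.mem_filter] at huv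
    rw [Finset.mem_coe, hT, Finset.mem_offDiag]
    exact ⟨Finset.mem_univ _, Finset.mem_univ _, hc u v huv.2⟩
  have hNn : N = n := by
    have h1 := Finset.card_le_card_of_surjOn _ hsurj
    have h2 : (N : ℤ) * (N - 1) ≤ n * (n - 1) := by
      rw [← hTcard, ← hDcard]
      exact_mod_cast h1
    by_contra hne
    have h3 : n + 1 ≤ N := by omega
    have h4 : (n : ℤ) + 1 ≤ N := by exact_mod_cast h3
    have h5 : (2 : ℤ) ≤ n := by exact_mod_cast hn
    nlinarith
  have hinj : Set.InjOn (fun p : V × V => (c p.1, c p.2)) D := by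
    refine Finset.injOn_of_surjOn_of_card_le _ hmaps hsurj ?_
    have h1 : (D.card : ℤ) ≤ T.card := by
      rw [hDcard, hTcard, hNn]
    exact_mod_cast h1
  have hkey : ∀ u v u' v', G.Adj u v → G.Adj u' v' → c u = c u' → c v = c v' → u = u' := by
    intro u v u' v' h1 h2 h3 h4
    have h5 : (u, v) = (u', v') := by
      refine hinj ?_ ?_ ?_
      · simp [hD, h1]
      · simp [hD, h2]
      · simp [h3, h4]
    exact congrArg Prod.fst h5
  set S : Finset V := Finset.univ.filter (fun u => ∃ v, G.Adj u v) with hS
  have hmemS : ∀ u, u ∈ S ↔ ∃ v, G.Adj u v := by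
    intro u
    simp [hS]
  have hcinj : ∀ u u', u ∈ S → u' ∈ S → c u = c u' → u = u' := by
    intro u u' hu hu' huu
    by_contra hne
    obtain ⟨v, hv⟩ := (hmemS u).1 hu
    obtain ⟨v', hv'⟩ := (hmemS u').1 hu'
    have hjl : c v ≠ c v' := by
      intro h
      exact hne (hkey u v u' v' hv hv' huu h)
    have hij : c v ≠ c u := (hc u v hv).symm
    have hil : c v' ≠ c u := by
      rw [huu]
      exact (hc u' v' hv').symm
    set c' : V → Fin N := fun x => if x = u then c v' else if c x = c u then c v else c x with hc'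
    have hone : ∀ x y, G.Adj x y → c x = c u → c' x ≠ c' y := by
      intro x y hxy hx
      have hy : c y ≠ c u := by
        intro hy
        exact hc x y hxy (hx.trans hy.symm)
      have hyu : y ≠ u := by
        rintro rfl
        exact hy rfl
      have hcy : c' y = c y := by
        simp only [hc', if_neg hyu, if_neg hy]
      rw [hcy]
      by_cases hxu : x = u
      · have hcx : c' x = c v' := by simp only [hc', if_pos hxu]
        rw [hcx]
        intro he
        apply hne
        rw [← hxu]
        exact hkey x y u' v' hxy hv' (by rw [hx, huu]) he.symm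
      · have hcx : c' x = c v := by simp only [hc', if_neg hxu, if_pos hx]
        rw [hcx]
        intro he
        exact hxu (hkey x y u v hxy hv hx he.symm)
    apply hmin
    refine col_avoid G c' ?_ (c u) ?_
    · intro x y hxy
      by_cases hx : c x = c u
      · exact hone x y hxy hx
      · by_cases hy : c y = c u
        · exact (hone y x hxy.symm hy).symm
        · have hxu : x ≠ u := by
            rintro rfl
            exact hx rfl
          have hyu : y ≠ u := by
            rintro rfl
            exact hy rfl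
          simp only [hc', if_neg hxu, if_neg hyu, if_neg hx, if_neg hy]
          exact hc x y hxy
    · intro x
      by_cases hxu : x = u
      · simp only [hc', if_pos hxu]
        exact hil
      · by_cases hx : c x = c u
        · simp only [hc', if_neg hxu, if_pos hx]
          exact hij
        · simp only [hc', if_neg hxu, if_neg hx]
          exact hx
  have hadj : ∀ u v, G.Adj u v ↔ u ≠ v ∧ u ∈ S ∧ v ∈ S := by
    intro u v
    constructor
    · intro huv
      exact ⟨huv.ne, (hmemS u).2 ⟨v, huv⟩, (hmemS v).2 ⟨u, huv.symm⟩⟩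
    · rintro ⟨hne, hu, hv⟩
      have h1 : c u ≠ c v := fun h => hne (hcinj u v hu hv h)
      obtain ⟨a, b, hab, ha, hb⟩ := hedge (c u) (c v) h1
      have h2 : a = u := hcinj a u ((hmemS a).2 ⟨b, hab⟩) hu ha
      have h3 : b = v := hcinj b v ((hmemS b).2 ⟨a, hab.symm⟩) hv hb
      rw [h2, h3] at hab
      exact hab
  refine ⟨S, ?_, hadj⟩
  have h1 := ord_complete G S hadj Finset.univ
  rw [hm, Finset.univ_inter] at h1
  have h2 : ((S.card : ℤ) - n) * (S.card + n - 1) = 0 := by linear_combination -h1
  have h3 : (0 : ℤ) ≤ S.card := Int.natCast_nonneg _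
  have h4 : (2 : ℤ) ≤ n := by exact_mod_cast hn
  rcases mul_eq_zero.1 h2 with h | h
  · have : (S.card : ℤ) = n := by linarith
    exact_mod_cast this
  · linarith

end Kn

end Pool.Agent.MP_710317_co
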