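import Mathlib

/-! Symmetric weights on the classes modulo an odd number, all of whose matchings are equal. -/

namespace Pool.Agent.MP_710317_co

open Finset

section Mat

variable {k : ℕ}

theorem mod_zero : (2 : ZMod (2 * k + 1)) * k + 1 = 0 := by
  have h := ZMod.natCast_self (2 * k + 1)
  push_cast at h
  exact h

/-- `t ↦ 2 t - j` -/
def dbl (j : ZMod (2 * k + 1)) : ZMod (2 * k + 1) ≃ ZMod (2 * k + 1) where
  toFun t := 2 * t - j
  invFun l := (k + 1) * (l + j)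
  left_inv t := by
    linear_combination t * (mod_zero (k := k))
  right_inv l := by
    linear_combination (l + j) * (mod_zero (k := k))

theorem sum_shift (w : ZMod (2 * k + 1) → ZMod (2 * k + 1) → ℤ)
    (π : Equiv.Perm (ZMod (2 * k + 1))) :
    ∑ t : ZMod (2 * k + 1), ∑ i, w (π (i + t)) (π (-i + t)) = ∑ i, ∑ j, w i j := by
  have h2 : ∀ t : ZMod (2 * k + 1), ∑ i, w (π (i + t)) (π (-i + t)) =
      ∑ j, w (π j) (π (2 * t - j)) := by
    intro t
    refine Fintype.sum_equiv (Equiv.addRight t) _ _ fun i => ?_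
    have h3 : (Equiv.addRight t) i = i + t := rfl
    rw [h3]
    congr 2
    ring
  rw [Finset.sum_congr rfl fun t _ => h2 t, Finset.sum_comm]
  have h3 : ∀ j : ZMod (2 * k + 1), ∑ t, w (π j) (π (2 * t - j)) = ∑ l, w (π j) l := by
    intro j
    exact Fintype.sum_equiv ((dbl j).trans π) _ _ fun t => rfl
  rw [Finset.sum_congr rfl fun j _ => h3 j]
  exact Fintype.sum_equiv π _ _ fun j => rfl

theorem exists_large (w : ZMod (2 * k + 1) → ZMod (2 * k + 1) → ℤ) (L : ℤ)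
    (hsum : ∑ i, ∑ j, w i j = (2 * k + 1 : ℕ) * L) :
    ∃ π : Equiv.Perm (ZMod (2 * k + 1)), L ≤ ∑ i, w (π i) (π (-i)) := by
  have h1 := sum_shift w (Equiv.refl _)
  have h2 : ∑ _t : ZMod (2 * k + 1), L ≤
      ∑ t : ZMod (2 * k + 1), ∑ i, w (Equiv.refl _ (i + t)) (Equiv.refl _ (-i + t)) := by
    rw [h1, hsum, Finset.sum_const, Finset.card_univ, ZMod.card, nsmul_eq_mul]
  obtain ⟨t, -, ht⟩ := Finset.exists_le_of_sum_le Finset.univ_nonempty h2
  exact ⟨Equiv.addRight t, ht⟩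

theorem all_eq (w : ZMod (2 * k + 1) → ZMod (2 * k + 1) → ℤ) (L : ℤ)
    (hL : ∀ π : Equiv.Perm (ZMod (2 * k + 1)), ∑ i, w (π i) (π (-i)) ≤ L)
    (hsum : ∑ i, ∑ j, w i j = (2 * k + 1 : ℕ) * L) (π : Equiv.Perm (ZMod (2 * k + 1))) :
    ∑ i, w (π i) (π (-i)) = L := by
  have h1 := sum_shift w π
  rw [hsum] at h1
  have h2 : ∀ t : ZMod (2 * k + 1), ∑ i, w (π (i + t)) (π (-i + t)) ≤ L := by
    intro t
    exact hL ((Equiv.addRight t).trans π)
  have h3 : ∑ t : ZMod (2 * k + 1), (L - ∑ i, w (π (i + t)) (π (-i + t))) = 0 := by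
    rw [Finset.sum_sub_distrib, h1, Finset.sum_const, Finset.card_univ, ZMod.card, nsmul_eq_mul,
      sub_self]
  have h4 := (Finset.sum_eq_zero_iff_of_nonneg (fun t _ => sub_nonneg.2 (h2 t))).1 h3 0
    (Finset.mem_univ _)
  simp only [add_zero] at h4
  linarith

theorem diff_eq (hk : 1 ≤ k) (w : ZMod (2 * k + 1) → ZMod (2 * k + 1) → ℤ)
    (hw : ∀ i, w i i = 0) (hs : ∀ i j, w i j = w j i) :
    ∑ i, w i (-i) - ∑ i, w (Equiv.swap 0 1 i) (Equiv.swap 0 1 (-i)) =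
      2 * (w (-1) 1 - w (-1) 0) := by
  have : Fact (1 < 2 * k + 1) := ⟨by omega⟩
  have h10 : (1 : ZMod (2 * k + 1)) ≠ 0 := one_ne_zero
  have hm1 : (-1 : ZMod (2 * k + 1)) ≠ 0 := neg_ne_zero.2 h10
  have hm2 : (-1 : ZMod (2 * k + 1)) ≠ 1 := by
    intro h
    have h2 : (2 : ZMod (2 * k + 1)) = 0 := by linear_combination -h
    have h3 := mod_zero (k := k)
    rw [h2] at h3
    apply h10
    linear_combination h3
  rw [← Finset.sum_sub_distrib]
  have hsub : ({0, 1, -1} : Finset (ZMod (2 * k + 1))) ⊆ Finset.univ := Finset.subset_univ _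
  rw [← Finset.sum_subset hsub]
  · rw [Finset.sum_insert (by simp [h10.symm, hm1.symm]),
      Finset.sum_insert (by simpa using hm2.symm), Finset.sum_singleton]
    rw [neg_zero, Equiv.swap_apply_left, Equiv.swap_apply_right, neg_neg,
      Equiv.swap_apply_of_ne_of_ne hm1 hm2, Equiv.swap_apply_right, hw, hw, hs 1 (-1), hs 0 (-1)]
    ring
  · intro i _ hi
    simp only [Finset.mem_insert, Finset.mem_singleton, not_or] at hi
    obtain ⟨hi0, hi1, hi2⟩ := hi
    have h5 : -i ≠ 0 := neg_ne_zero.2 hi0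
    have h6 : -i ≠ 1 := by
      intro h
      apply hi2
      rw [← h, neg_neg]
    rw [Equiv.swap_apply_of_ne_of_ne hi0 hi1, Equiv.swap_apply_of_ne_of_ne h5 h6, sub_self]

theorem exists_perm (hk : 1 ≤ k) (a b z : ZMod (2 * k + 1)) (hab : a ≠ b) (haz : a ≠ z)
    (hbz : b ≠ z) : ∃ π : Equiv.Perm (ZMod (2 * k + 1)), π (-1) = a ∧ π 1 = b ∧ π 0 = z := by
  have : Fact (1 < 2 * k + 1) := ⟨by omega⟩
  have h10 : (1 : ZMod (2 * k + 1)) ≠ 0 := one_ne_zero
  have hm1 : (-1 : ZMod (2 * k + 1)) ≠ 0 := neg_ne_zero.2 h10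
  have hm2 : (-1 : ZMod (2 * k + 1)) ≠ 1 := by
    intro h
    have h2 : (2 : ZMod (2 * k + 1)) = 0 := by linear_combination -h
    have h3 := mod_zero (k := k)
    rw [h2] at h3
    apply h10
    linear_combination h3
  set π1 : Equiv.Perm (ZMod (2 * k + 1)) := Equiv.swap 0 z with hπ1
  have h1 : π1 0 = z := Equiv.swap_apply_left _ _
  set b' := π1.symm b with hb'
  have hb'1 : π1 b' = b := Equiv.apply_symm_apply _ _
  have hb'0 : b' ≠ 0 := by
    intro h
    rw [h, h1] at hb'1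
    exact hbz hb'1.symm
  set π2 : Equiv.Perm (ZMod (2 * k + 1)) := π1 * Equiv.swap 1 b' with hπ2
  have h20 : π2 0 = z := by
    rw [hπ2, Equiv.Perm.mul_apply, Equiv.swap_apply_of_ne_of_ne h10.symm hb'0.symm, h1]
  have h21 : π2 1 = b := by
    rw [hπ2, Equiv.Perm.mul_apply, Equiv.swap_apply_left, hb'1]
  set a' := π2.symm a with ha'
  have ha'1 : π2 a' = a := Equiv.apply_symm_apply _ _
  have ha'0 : a' ≠ 0 := by
    intro h
    rw [h, h20] at ha'1
    exact haz ha'1.symm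
  have ha'2 : a' ≠ 1 := by
    intro h
    rw [h, h21] at ha'1
    exact hab ha'1.symm
  refine ⟨π2 * Equiv.swap (-1) a', ?_, ?_, ?_⟩
  · rw [Equiv.Perm.mul_apply, Equiv.swap_apply_left, ha'1]
  · rw [Equiv.Perm.mul_apply, Equiv.swap_apply_of_ne_of_ne hm2.symm ha'2.symm, h21]
  · rw [Equiv.Perm.mul_apply, Equiv.swap_apply_of_ne_of_ne hm1.symm ha'0.symm, h20]

theorem row_const (hk : 1 ≤ k) (w : ZMod (2 * k + 1) → ZMod (2 * k + 1) → ℤ) (L : ℤ)
    (hw : ∀ i, w i i = 0) (hs : ∀ i j, w i j = w j i)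
    (hL : ∀ π : Equiv.Perm (ZMod (2 * k + 1)), ∑ i, w (π i) (π (-i)) ≤ L)
    (hsum : ∑ i, ∑ j, w i j = (2 * k + 1 : ℕ) * L) (a b z : ZMod (2 * k + 1)) (hab : a ≠ b)
    (haz : a ≠ z) (hbz : b ≠ z) : w a b = w a z := by
  obtain ⟨π, h1, h2, h3⟩ := exists_perm hk a b z hab haz hbz
  have h4 := diff_eq hk (fun i j => w (π i) (π j)) (fun i => hw _) (fun i j => hs _ _)
  have h5 := all_eq w L hL hsum π
  have h6 := all_eq w L hL hsum ((Equiv.swap 0 1).trans π)
  simp only [Equiv.trans_apply] at h6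
  simp only [h5, h6, h1, h2, h3] at h4
  linarith

end Mat

end Pool.Agent.MP_710317_co
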