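import Pool.Agent.MP_710317_co.Flip
import Pool.Agent.MP_710317_co.Cut
import Pool.Agent.MP_710317_co.Matrix
import Pool.Agent.MP_710317_co.Kn

/-! The extremal values at the triangular numbers. -/

set_option linter.unusedSectionVars false

namespace Pool.Agent.MP_710317_co

open Finset

section Main

variable {V : Type*} [Fintype V] [DecidableEq V] (G : SimpleGraph V)

theorem proper_perm {M : ℕ} (c : V → ZMod M) (hc : ∀ u v, G.Adj u v → c u ≠ c v)
    (π : Equiv.Perm (ZMod M)) : ∀ u v, G.Adj u v → π.symm (c u) ≠ π.symm (c v) :=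
  fun u v huv he => hc u v huv (π.symm.injective he)

/-- Some cut is at least the average one. -/
theorem cut_weak (k : ℕ) (c : V → ZMod (2 * k + 1)) (hc : ∀ u v, G.Adj u v → c u ≠ c v)
    (L : ℤ) (hL : ord G univ = (2 * k + 1 : ℕ) * L) :
    ∃ U : Finset V, 2 * (ord G U + ord G Uᶜ) ≤ ord G univ - L := by
  obtain ⟨π, hπ⟩ := exists_large (cw G c) L (by rw [cw_sum, hL])
  obtain ⟨U, hU⟩ := exists_cut_color G k (fun u => π.symm (c u)) (proper_perm G c hc π)
  refine ⟨U, hU.trans ?_⟩
  rw [Wt_eq]
  simp only [cw_perm]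
  linarith

/-- If no cut beats the average one, then the numbers of edges between a class and the other
classes are all equal. -/
theorem cut_row (k : ℕ) (hk : 1 ≤ k) (c : V → ZMod (2 * k + 1))
    (hc : ∀ u v, G.Adj u v → c u ≠ c v) (L : ℤ) (hL : ord G univ = (2 * k + 1 : ℕ) * L)
    (hbad : ∀ U : Finset V, ord G univ - L ≤ 2 * (ord G U + ord G Uᶜ))
    (a b z : ZMod (2 * k + 1)) (hab : a ≠ b) (haz : a ≠ z) (hbz : b ≠ z) :
    cw G c a b = cw G c a z := by
  refine row_const hk (cw G c) L (cw_self G c hc) (cw_comm G c) ?_ ?_ a b z hab haz hbz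
  · intro π
    obtain ⟨U, hU⟩ := exists_cut_color G k (fun u => π.symm (c u)) (proper_perm G c hc π)
    rw [Wt_eq] at hU
    simp only [cw_perm] at hU
    have := hbad U
    linarith
  · rw [cw_sum, hL]

theorem natCast_inj {M a b : ℕ} (ha : a < M) (hb : b < M) (h : (a : ZMod M) = b) : a = b := by
  have h1 := congrArg ZMod.val h
  rwa [ZMod.val_natCast_of_lt ha, ZMod.val_natCast_of_lt hb] at h1

/-- odd case -/
theorem cut_odd (k : ℕ) (hk : 1 ≤ k) (hm : ord G univ = (2 * k + 1 : ℕ) * (2 * k))
    (hcol : Col G (2 * k)) :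
    ∃ U : Finset V, 2 * (ord G U + ord G Uᶜ) ≤ ord G univ - 2 * k - 1 := by
  by_contra hcon
  push Not at hcon
  obtain ⟨c0, hc0⟩ := hcol
  set c : V → ZMod (2 * k + 1) := fun u => ((c0 u : ℕ) : ZMod (2 * k + 1)) with hcdef
  have hc : ∀ u v, G.Adj u v → c u ≠ c v := by
    intro u v huv he
    apply hc0 u v huv
    apply Fin.ext
    exact natCast_inj (by have := (c0 u).2; omega) (by have := (c0 v).2; omega) he
  set z : ZMod (2 * k + 1) := ((2 * k : ℕ) : ZMod (2 * k + 1)) with hz
  have hcz : ∀ u, c u ≠ z := by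
    intro u he
    have h1 := natCast_inj (by have := (c0 u).2; omega) (by omega) he
    have h2 := (c0 u).2
    omega
  have hrow := cut_row G k hk c hc (2 * k) hm (by
    intro U
    have := hcon U
    linarith)
  have hz0 : ∀ a, cw G c a z = 0 := by
    intro a
    unfold cw
    refine Finset.sum_eq_zero fun u _ => Finset.sum_eq_zero fun v _ => ?_
    rw [if_neg]
    rintro ⟨_, h⟩
    exact hcz v h
  have hall : ∀ a b, cw G c a b = 0 := by
    intro a b
    by_cases hab : a = b
    · rw [hab]
      exact cw_self G c hc b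
    · by_cases hbz : b = z
      · rw [hbz]
        exact hz0 a
      · by_cases haz : a = z
        · rw [cw_comm, haz]
          exact hz0 b
        · rw [hrow a b z hab haz hbz]
          exact hz0 a
  have hsum := cw_sum G c
  have h1 : ∑ i, ∑ j, cw G c i j = 0 :=
    Finset.sum_eq_zero fun i _ => Finset.sum_eq_zero fun j _ => hall i j
  rw [h1, hm] at hsum
  have h2 : (1 : ℤ) ≤ k := by exact_mod_cast hk
  push_cast at hsum
  nlinarith

/-- even case -/
theorem cut_even (j : ℕ) (hj : 2 ≤ j) (hm : ord G univ = (2 * j + 1 : ℕ) * (2 * j + 2))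
    (hcol : Col G (2 * j + 1)) :
    ∃ U : Finset V, 2 * (ord G U + ord G Uᶜ) ≤ ord G univ - (2 * j + 2) - 1 := by
  by_contra hcon
  push Not at hcon
  obtain ⟨c0, hc0⟩ := hcol
  set c : V → ZMod (2 * j + 1) := fun u => ((c0 u : ℕ) : ZMod (2 * j + 1)) with hcdef
  have hc : ∀ u v, G.Adj u v → c u ≠ c v := by
    intro u v huv he
    apply hc0 u v huv
    apply Fin.ext
    exact natCast_inj (c0 u).2 (c0 v).2 he
  have hrow := cut_row G j (by omega) c hc (2 * j + 2) hm (by
    intro U
    have := hcon U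
    linarith)
  have : Fact (1 < 2 * j + 1) := ⟨by omega⟩
  have hsucc : ∀ a : ZMod (2 * j + 1), a ≠ a + 1 := by
    intro a h
    have h1 : (1 : ZMod (2 * j + 1)) = 0 := by linear_combination -h
    exact one_ne_zero h1
  have hr : ∀ a, ∑ b, cw G c a b = 2 * j * cw G c a (a + 1) := by
    intro a
    rw [← Finset.add_sum_erase _ _ (Finset.mem_univ a), cw_self G c hc, zero_add]
    have h1 : ∀ b ∈ (Finset.univ : Finset (ZMod (2 * j + 1))).erase a,
        cw G c a b = cw G c a (a + 1) := by
      intro b hb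
      have hba : b ≠ a := Finset.ne_of_mem_erase hb
      by_cases hb1 : b = a + 1
      · rw [hb1]
      · exact hrow a b (a + 1) hba.symm (hsucc a) hb1
    rw [Finset.sum_congr rfl h1, Finset.sum_const, Finset.card_erase_of_mem (Finset.mem_univ a),
      Finset.card_univ, ZMod.card, nsmul_eq_mul]
    push_cast
    ring
  have hsum := cw_sum G c
  rw [Finset.sum_congr rfl fun a _ => hr a, ← Finset.mul_sum, hm] at hsum
  set X : ℤ := ∑ a, cw G c a (a + 1) with hX
  have h1 : (j : ℤ) * (X - 2 * j - 3) = 1 := by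
    push_cast at hsum
    linarith
  have h2 : (j : ℤ) ∣ 1 := Dvd.intro _ h1
  have h3 : (j : ℤ) ≤ 1 := Int.le_of_dvd one_pos h2
  have h4 : (2 : ℤ) ≤ j := by exact_mod_cast hj
  linarith

/-- The upper bound for colourable graphs. -/
theorem upper_col (n : ℕ) (hn : 2 ≤ n) (hm : ord G univ = (n : ℤ) * (n - 1))
    (hcol : Col G (n - 1)) :
    4 * (qval G : ℤ) ≤ 4 * val n ∧ (n ≠ 4 → 4 * (qval G : ℤ) < 4 * val n) := by
  rcases Nat.even_or_odd' n with ⟨k, rfl | rfl⟩
  · -- `n = 2 k`
    rcases Nat.lt_or_ge k 2 with hk | hk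
    · -- `k = 1`
      exfalso
      have hk1 : k = 1 := by omega
      subst hk1
      obtain ⟨c, hc⟩ := hcol
      have h0 : ord G univ = 0 := by
        unfold ord
        refine Finset.sum_eq_zero fun u _ => Finset.sum_eq_zero fun v _ => ?_
        refine ad_of_not_adj G fun huv => hc u v huv (Fin.ext ?_)
        have h1 := (c u).2
        have h2 := (c v).2
        omega
      rw [h0] at hm
      norm_num at hm
    · obtain ⟨m, hmk⟩ : ∃ m : ℤ, m = 2 * (k : ℤ) ^ 2 - k := ⟨_, rfl⟩
      have hm2 : ord G univ = 2 * m := by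
        rw [hm, hmk]
        push_cast
        ring
      obtain ⟨U, s, d, hmin, h1, h2, he, hd0, hds, hdw, hor⟩ := flip G m hm2
      have hq := qval_le G U
      rw [h1, h2] at hq
      have hq2 : 4 * (qval G : ℤ) ≤ 2 * (s ^ 2 + d ^ 2) := by linarith [sq_nonneg s]
      rw [val_even]
      rcases Nat.lt_or_ge k 3 with hk3 | hk3
      · have hk2 : k = 2 := by omega
        subst hk2
        refine ⟨?_, fun h => absurd rfl h⟩
        obtain ⟨c0, hc0⟩ := hcol
        obtain ⟨W, hW⟩ := cut_weak G 1 (fun u => ((c0 u : ℕ) : ZMod (2 * 1 + 1))) (by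
          intro u v huv he
          apply hc0 u v huv
          apply Fin.ext
          exact natCast_inj (c0 u).2 (c0 v).2 he) 4 (by rw [hm]; norm_num)
        have h3 := hmin W
        rw [hm] at hW
        norm_num at hW hmk
        have h4 : s ≤ 2 := by linarith
        have h5 := num_four s d (m - 2 * s) h4 (by rw [hmk]) hd0 hds he hor
        norm_num
        linarith
      · obtain ⟨j, rfl⟩ : ∃ j, k = j + 1 := ⟨k - 1, by omega⟩
        have hm3 : ord G univ = (2 * j + 1 : ℕ) * (2 * j + 2) := by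
          rw [hm]
          push_cast
          ring
        have hcol' : Col G (2 * j + 1) := hcol
        obtain ⟨W, hW⟩ := cut_even G j (by omega) hm3 hcol'
        have h3 := hmin W
        rw [hm2, hmk] at hW
        push_cast at hW hmk
        have h4 : s ≤ ((j : ℤ) + 1) ^ 2 - ((j : ℤ) + 1) - 1 := by
          have h5 : 4 * s < 4 * (((j : ℤ) + 1) ^ 2 - ((j : ℤ) + 1)) := by linarith
          linarith
        have h5 := num_even ((j : ℤ) + 1) s d (m - 2 * s) (by
          have : (3 : ℤ) ≤ ((j + 1 : ℕ) : ℤ) := by exact_mod_cast hk3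
          push_cast at this
          exact this) h4 (by rw [hmk]) hd0 hds hdw hor
        push_cast
        constructor
        · linarith
        · intro _
          linarith
  · -- `n = 2 k + 1`
    obtain ⟨m, hmk⟩ : ∃ m : ℤ, m = 2 * (k : ℤ) ^ 2 + k := ⟨_, rfl⟩
    have hm2 : ord G univ = 2 * m := by
      rw [hm, hmk]
      push_cast
      ring
    obtain ⟨U, s, d, hmin, h1, h2, he, hd0, hds, hdw, hor⟩ := flip G m hm2
    have hq := qval_le G U
    rw [h1, h2] at hq
    have hq2 : 4 * (qval G : ℤ) ≤ 2 * (s ^ 2 + d ^ 2) := by linarith [sq_nonneg s]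
    rw [val_odd]
    have hm3 : ord G univ = (2 * k + 1 : ℕ) * (2 * k) := by
      rw [hm]
      push_cast
      ring
    obtain ⟨W, hW⟩ := cut_odd G k (by omega) hm3 hcol
    have h3 := hmin W
    rw [hm2, hmk] at hW
    have h4 : s ≤ (k : ℤ) ^ 2 - 1 := by
      have h5 : 4 * s < 4 * (k : ℤ) ^ 2 := by linarith
      linarith
    have h5 := num_odd k s d (m - 2 * s) (by exact_mod_cast (by omega : 1 ≤ k)) h4
      (by rw [hmk]) hd0 hds hdw hor
    constructor
    · linarith
    · intro _
      linarith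

/-- The upper bound and the equality case. -/
theorem upper (n : ℕ) (hn : 2 ≤ n) (hm : ord G univ = (n : ℤ) * (n - 1)) :
    qval G ≤ val n ∧ (n ≠ 4 → qval G = val n →
      ∃ S : Finset V, S.card = n ∧ ∀ u v, G.Adj u v ↔ u ≠ v ∧ u ∈ S ∧ v ∈ S) := by
  by_cases hcol : Col G (n - 1)
  · obtain ⟨h1, h2⟩ := upper_col G n hn hm hcol
    constructor
    · have : (qval G : ℤ) ≤ val n := by linarith
      exact_mod_cast this
    · intro h4 heq
      have := h2 h4
      rw [heq] at this
      exact absurd this (lt_irrefl _)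
  · obtain ⟨S, hS, hadj⟩ := complete_of_not_col G n hn hm hcol
    refine ⟨?_, fun _ _ => ⟨S, hS, hadj⟩⟩
    rw [qval_complete G S hadj, hS]

end Main

end Pool.Agent.MP_710317_co
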